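import Pool.Agent.Helper10.TW.Defs
import Pool.Agent.Helper29.SI.P1a
import Pool.Agent.Helper29.SI.P1b

/-! TW-A: the palindromes with given first digits in one residue class. -/

set_option autoImplicit false

namespace Pool.Agent.Helper10.TW

open Finset Filter Pool.Agent.Helper10 Pool.Agent.Helper10.P5 Pool.Agent.Helper10.P4
  Pool.Agent.Helper10.P3 Pool.Agent.Helper10.SQ Pool.Agent.Helper10.EN Pool.Agent.Helper15.SI

/-- TW-A. From pw_count (helper15) and class_bound_S (helper29, LevB). -/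
theorem class_PW (n k w M r : ℕ) (hk : 1 ≤ k) (hkn : k ≤ n) (hw1 : 10 ^ (k - 1) ≤ w)
    (hw : w < 10 ^ k) (hM : M.Coprime 10) :
    |(((PW n k w).filter (fun N => N ≡ r [MOD M])).card : ℝ) - 10 ^ (n - k + 1) / M| ≤
      rS (n - k) M := by
  obtain ⟨b, hb⟩ := pw_count (fun l N hl => isPalD_iff l N hl) (fun l k w hw => sy_prefix l k w hw)
    n k w hk hkn hw1 hw M r hM
  rw [hb]
  exact class_bound_S (n - k) M b hM

end Pool.Agent.Helper10.TW
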